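import Mathlib
import Pool.Agent.Lib.MP_345bc6_co.Defs
import Pool.Agent.Lib.MP_345bc6_co.Final

set_option autoImplicit false

namespace Pool.Agent.Results.MP_345bc6_co.DegreeTwoShare

open Pool.Agent.MP_345bc6_co
open scoped Classical

/-- The density of connected sets of a connected graph on at least two vertices is less than
`1 - (1 - ρ)/6`, where `ρ` is the proportion of vertices of degree two. -/
theorem result (V : Type) [Fintype V] (G : SimpleGraph V) (hG : G.Connected)
    (hc : 2 ≤ Fintype.card V) :
    density G < 1 - (1 - ((Finset.univ.filter (fun v => G.degree v = 2)).card : ℝ)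
      / (Fintype.card V : ℝ)) / 6 := by
  have h := general G hG hc
  have hn : (0 : ℝ) < (Fintype.card V : ℝ) := by
    have : 0 < Fintype.card V := by omega
    exact_mod_cast this
  refine lt_of_lt_of_eq h ?_
  field_simp
  ring

end Pool.Agent.Results.MP_345bc6_co.DegreeTwoShare
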