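import Mathlib
import Pool.Agent.Lib.MP_345bc6_co.Defs
import Pool.Agent.Lib.MP_345bc6_co.Final

set_option autoImplicit false

namespace Pool.Agent.Results.MP_345bc6_co.SupIsFiveSixths

open Pool.Agent.MP_345bc6_co
open scoped Classical

/-- Every connected graph with minimum degree at least three has density of connected sets less
than `5/6`, and `5/6` is the supremum of these densities. -/
theorem result :
    (∀ (V : Type) [Fintype V] (G : SimpleGraph V), G.Connected → (∀ v, 3 ≤ G.degree v) →
      density G < 5 / 6) ∧
    IsLUB {d : ℝ | ∃ (V : Type) (_ : Fintype V) (G : SimpleGraph V),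
      G.Connected ∧ (∀ v, 3 ≤ G.degree v) ∧ d = density G} (5 / 6) := by
  refine ⟨fun V _ G hG h3 => three G hG h3, ?_, ?_⟩
  · rintro d ⟨V, _, G, hG, h3, rfl⟩
    exact (three G hG h3).le
  · intro b hb
    by_contra hcon
    push Not at hcon
    obtain ⟨m, hm⟩ := exists_nat_gt (2050 / (5 / 6 - b))
    have hpos : 0 < 5 / 6 - b := by linarith
    have h1 : density (chain m) ≤ b := by
      apply hb
      refine ⟨_, inferInstance, chain m, chain_connected, ?_, rfl⟩
      intro v
      rw [← dg_eq]
      exact chain_deg v
    have h2 := density_chain_ge m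
    have h3 : 2050 / ((m : ℝ) + 2) < 5 / 6 - b := by
      rw [div_lt_iff₀ (by positivity)]
      rw [div_lt_iff₀ hpos] at hm
      nlinarith
    linarith

end Pool.Agent.Results.MP_345bc6_co.SupIsFiveSixths
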